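import Pool.Agent.X126.LC.Fin

/-! # Countably many limit points along good approximations: main theorem -/

set_option autoImplicit false

open Filter Topology Set

namespace Pool.Agent.X126.LC

open Pool.Agent.H380R2.LC

variable {α β : ℝ}

lemma countable_smul (D : ℤ) (hD : D ≠ 0) (c : UnitAddCircle) :
    {x : UnitAddCircle | D • x = c}.Countable := by
  obtain ⟨c₀, rfl⟩ := QuotientAddGroup.mk_surjective c
  refine (Set.countable_range (fun n : ℤ => (((c₀ + n) / D : ℝ) : UnitAddCircle))).mono ?_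
  intro x hx
  obtain ⟨t, rfl⟩ := QuotientAddGroup.mk_surjective x
  have hx' : ((D • t : ℝ) : UnitAddCircle) = (c₀ : UnitAddCircle) := by
    rw [AddCircle.coe_zsmul]
    exact hx
  have h0 : ((D • t - c₀ : ℝ) : UnitAddCircle) = 0 := by
    rw [AddCircle.coe_sub, hx', sub_self]
  obtain ⟨n, hn⟩ := AddCircle.coe_eq_zero_iff (1 : ℝ) |>.1 h0
  refine ⟨n, ?_⟩
  have hDR : (D : ℝ) ≠ 0 := by exact_mod_cast hD
  have h1 : (c₀ + n) / D = t := by
    rw [zsmul_eq_mul, mul_one, zsmul_eq_mul] at hn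
    rw [div_eq_iff hDR]
    linarith
  show (((c₀ + n) / D : ℝ) : UnitAddCircle) = _
  rw [h1]

/-- choice of the index at a given scale -/
lemma exists_idx (hα : Irrational α) {Q : ℕ → ℕ} (hQ : Tendsto Q atTop atTop) {C : ℝ} (hC : 1 ≤ C)
    (h1 : ∀ᶠ k in atTop, (Q (k + 1) : ℝ) ≤ C * Q k) (R : ℕ) (hR : 1 ≤ R) :
    ∃ κ : ℕ → ℕ, Tendsto κ atTop atTop ∧ ∀ᶠ n in atTop,
      (R : ℝ) * den α n ≤ Q (κ n) ∧ (Q (κ n) : ℝ) ≤ C * (R * den α n) := by
  obtain ⟨K, hK⟩ := eventually_atTop.1 h1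
  have hex : ∀ n : ℕ, ∃ k, K ≤ k ∧ (R : ℤ) * den α n ≤ Q k := by
    intro n
    have := (hQ.eventually_ge_atTop (R * (den α n).toNat)).and (eventually_ge_atTop K)
    obtain ⟨k, hk1, hk2⟩ := this.exists
    refine ⟨k, hk2, ?_⟩
    have h2 := Int.toNat_of_nonneg (den_nonneg hα n)
    calc (R : ℤ) * den α n = ((R * (den α n).toNat : ℕ) : ℤ) := by push_cast; rw [h2]
      _ ≤ Q k := by exact_mod_cast hk1
  classical
  refine ⟨fun n => Nat.find (hex n), ?_, ?_⟩
  · rw [tendsto_atTop]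
    intro M
    filter_upwards [(tendsto_den hα).eventually_gt_atTop
      (((∑ i ∈ Finset.range M, Q i : ℕ)) : ℤ)] with n hn
    by_contra hcon
    push Not at hcon
    have h2 := (Nat.find_spec (hex n)).2
    have h3 : Q (Nat.find (hex n)) ≤ ∑ i ∈ Finset.range M, Q i :=
      Finset.single_le_sum (f := Q) (fun _ _ => Nat.zero_le _) (Finset.mem_range.2 hcon)
    have h4 : (Q (Nat.find (hex n)) : ℤ) ≤ ((∑ i ∈ Finset.range M, Q i : ℕ) : ℤ) := by
      exact_mod_cast h3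
    have h5 := den_nonneg hα n
    have h6 : (1 : ℤ) ≤ R := by exact_mod_cast hR
    nlinarith
  · filter_upwards [(tendsto_den hα).eventually_gt_atTop (Q K : ℤ)] with n hn
    have h2 := Nat.find_spec (hex n)
    have h6 : (1 : ℤ) ≤ R := by exact_mod_cast hR
    refine ⟨by exact_mod_cast h2.2, ?_⟩
    have hne : Nat.find (hex n) ≠ K := by
      intro h
      rw [h] at h2
      have := h2.2
      have h5 := den_nonneg hα n
      nlinarith
    obtain ⟨m, hm⟩ : ∃ m, Nat.find (hex n) = m + 1 := ⟨Nat.find (hex n) - 1, by omega⟩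
    have hKm : K ≤ m := by omega
    have h3 := Nat.find_min (hex n) (m := m) (by omega)
    push Not at h3
    have h4 := h3 hKm
    have h5 : (Q m : ℝ) ≤ R * den α n := by
      have : (Q m : ℝ) < (R : ℝ) * den α n := by exact_mod_cast h4
      exact this.le
    rw [hm]
    exact (hK m hKm).trans (mul_le_mul_of_nonneg_left h5 (by linarith))

/-- the coordinates of a good approximation are bounded -/
lemma coef (hα : Irrational α) (A : ℕ) (hA : ∀ k, pq α (k + 1) ≤ A) {C : ℝ} (hC : 1 ≤ C)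
    {q : ℕ} (h2 : (q : ℝ) * |(q : ℝ) * α - round ((q : ℝ) * α)| ≤ C) (R : ℕ) (hR : 1 ≤ R) (n : ℕ)
    (hn : 1 ≤ n) (h3 : (R : ℝ) * den α n ≤ q) (h4 : (q : ℝ) ≤ C * (R * den α n)) :
    ∃ a b : ℤ, (q : ℤ) = a * den α n + b * den α (n + 1) ∧
      round ((q : ℝ) * α) = a * num α n + b * num α (n + 1) ∧
      |a| ≤ ⌊C * (A + 1) + C * R⌋ ∧ |b| ≤ ⌊C * (A + 1) + C * R⌋ := by
  obtain ⟨a, b, e1, e2, e3, e4⟩ := repr α n q (round ((q : ℝ) * α))
  obtain ⟨m, rfl⟩ : ∃ m, n = m + 1 := ⟨n - 1, by omega⟩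
  have hR' : (1 : ℝ) ≤ R := by exact_mod_cast hR
  have hA' : (0 : ℝ) ≤ A := by positivity
  have hd : (1 : ℝ) ≤ den α (m + 1) := by exact_mod_cast den_pos hα m
  have hq0 : (0 : ℝ) < q := by nlinarith
  set e : ℝ := |(q : ℝ) * α - round ((q : ℝ) * α)| with he
  have he0 : 0 ≤ e := abs_nonneg _
  have hed : e * den α (m + 1) ≤ C := by
    have : e * den α (m + 1) ≤ e * q := mul_le_mul_of_nonneg_left (by nlinarith) he0
    linarith
  have hd1 : (den α (m + 1 + 1) : ℝ) ≤ (A + 1) * den α (m + 1) := by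
    have e' : den α (m + 1 + 1) = pq α (m + 1) * den α (m + 1) + den α m := rfl
    have e1 := hA m
    have e2 := den_mono hα (Nat.le_succ m)
    have e3 := den_pos hα m
    have : den α (m + 1 + 1) ≤ ((A : ℤ) + 1) * den α (m + 1) := by
      rw [e']
      nlinarith
    exact_mod_cast this
  have hd1' : (0 : ℝ) ≤ den α (m + 1 + 1) := by exact_mod_cast den_nonneg hα _
  have ht1 : (q : ℝ) * |th α (m + 1)| ≤ C * R := by
    calc (q : ℝ) * |th α (m + 1)| ≤ (C * (R * den α (m + 1))) * |th α (m + 1)| :=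
          mul_le_mul_of_nonneg_right h4 (abs_nonneg _)
      _ = C * R * (den α (m + 1) * |th α (m + 1)|) := by ring
      _ ≤ C * R * 1 := mul_le_mul_of_nonneg_left (th_bound hα _) (by positivity)
      _ = C * R := mul_one _
  have ht2 : (q : ℝ) * |th α (m + 1 + 1)| ≤ C * R :=
    (mul_le_mul_of_nonneg_left (th_mono hα (m + 1)) hq0.le).trans ht1
  refine ⟨a, b, e1, e2, ?_, ?_⟩
  · rw [Int.le_floor, Int.cast_abs, e3]
    refine (abs_sub _ _).trans ?_
    rw [abs_mul, abs_mul, abs_of_nonneg hd1']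
    simp only [Int.cast_natCast, Nat.abs_cast]
    rw [← he]
    have : e * den α (m + 1 + 1) ≤ C * (A + 1) := by
      calc e * den α (m + 1 + 1) ≤ e * ((A + 1) * den α (m + 1)) :=
            mul_le_mul_of_nonneg_left hd1 he0
        _ = (A + 1) * (e * den α (m + 1)) := by ring
        _ ≤ (A + 1) * C := mul_le_mul_of_nonneg_left hed (by positivity)
        _ = C * (A + 1) := by ring
    linarith
  · rw [Int.le_floor, Int.cast_abs, e4]
    refine (abs_sub _ _).trans ?_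
    rw [abs_mul, abs_mul, abs_of_nonneg (by linarith : (0 : ℝ) ≤ den α (m + 1))]
    simp only [Int.cast_natCast, Nat.abs_cast]
    rw [← he]
    have : C ≤ C * (A + 1) := by nlinarith
    linarith

/-- two good approximations at different scales are independent -/
lemma indep (hα : Irrational α) (A : ℕ) (hA : ∀ k, pq α (k + 1) ≤ A) {C : ℝ} (hC : 1 ≤ C)
    {q q' : ℕ} (h2 : (q' : ℝ) * |(q' : ℝ) * α - round ((q' : ℝ) * α)| ≤ C) (R : ℕ)
    (hRC : ((A : ℝ) + 2) * C ^ 3 < (R : ℝ) ^ 2) (n : ℕ) (hn : 1 ≤ n)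
    (h3 : (1 : ℝ) * den α n ≤ q) (h4 : (q : ℝ) ≤ C * (1 * den α n))
    (h5 : (R : ℝ) * den α n ≤ q') {a b c d : ℤ}
    (e1 : (q : ℤ) = a * den α n + b * den α (n + 1))
    (e2 : round ((q : ℝ) * α) = a * num α n + b * num α (n + 1))
    (e3 : (q' : ℤ) = c * den α n + d * den α (n + 1))
    (e4 : round ((q' : ℝ) * α) = c * num α n + d * num α (n + 1)) : a * d - b * c ≠ 0 := by
  intro hdet
  obtain ⟨m, rfl⟩ : ∃ m, n = m + 1 := ⟨n - 1, by omega⟩
  have hd : (1 : ℝ) ≤ den α (m + 1) := by exact_mod_cast den_pos hα m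
  have hq1 : (1 : ℝ) ≤ q := by linarith
  have hq1' : (1 : ℤ) ≤ q := by exact_mod_cast hq1
  have hlow := lower hα A hA q (round ((q : ℝ) * α)) hq1'
  simp only [Int.cast_natCast] at hlow
  have hcross : (q : ℤ) * round ((q' : ℝ) * α) = round ((q : ℝ) * α) * q' := by
    rw [e2, e4, e3]
    rw [e1]
    linear_combination (den α (m + 1) * num α (m + 1 + 1) - den α (m + 1 + 1) * num α (m + 1)) * hdet
  have hcross' : (q : ℝ) * (round ((q' : ℝ) * α) : ℝ) = (round ((q : ℝ) * α) : ℝ) * q' := by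
    exact_mod_cast hcross
  have heq : (q' : ℝ) * ((q : ℝ) * α - round ((q : ℝ) * α)) =
      q * ((q' : ℝ) * α - round ((q' : ℝ) * α)) := by
    linear_combination hcross'
  have heq' : (q' : ℝ) * |(q : ℝ) * α - round ((q : ℝ) * α)| =
      q * |(q' : ℝ) * α - round ((q' : ℝ) * α)| := by
    have := congrArg abs heq
    rwa [abs_mul, abs_mul, Nat.abs_cast, Nat.abs_cast] at this
  set x := |(q : ℝ) * α - round ((q : ℝ) * α)| with hx
  set x' := |(q' : ℝ) * α - round ((q' : ℝ) * α)| with hx'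
  have hq0' : (0 : ℝ) ≤ q' := by positivity
  have s1 : (q' : ℝ) ^ 2 * x ≤ q * C := by
    have : (q' : ℝ) ^ 2 * x = q * (q' * x') := by
      rw [sq, mul_assoc, heq']
      ring
    rw [this]
    exact mul_le_mul_of_nonneg_left h2 (by linarith)
  have s2 : (q' : ℝ) ^ 2 ≤ ((A : ℝ) + 2) * C * (q : ℝ) ^ 2 := by
    calc (q' : ℝ) ^ 2 = (q' : ℝ) ^ 2 * 1 := (mul_one _).symm
      _ ≤ (q' : ℝ) ^ 2 * (((A : ℝ) + 2) * (q * x)) :=
          mul_le_mul_of_nonneg_left hlow (by positivity)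
      _ = ((A : ℝ) + 2) * q * ((q' : ℝ) ^ 2 * x) := by ring
      _ ≤ ((A : ℝ) + 2) * q * (q * C) := mul_le_mul_of_nonneg_left s1 (by positivity)
      _ = ((A : ℝ) + 2) * C * (q : ℝ) ^ 2 := by ring
  have s3 : ((R : ℝ) * den α (m + 1)) ^ 2 ≤ (q' : ℝ) ^ 2 :=
    pow_le_pow_left₀ (by positivity) h5 2
  have s4 : (q : ℝ) ^ 2 ≤ (C * (1 * den α (m + 1))) ^ 2 := pow_le_pow_left₀ (by linarith) h4 2
  have s5 : (R : ℝ) ^ 2 * (den α (m + 1) : ℝ) ^ 2 ≤
      (((A : ℝ) + 2) * C ^ 3) * (den α (m + 1) : ℝ) ^ 2 := by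
    calc (R : ℝ) ^ 2 * (den α (m + 1) : ℝ) ^ 2 = ((R : ℝ) * den α (m + 1)) ^ 2 := by ring
      _ ≤ ((A : ℝ) + 2) * C * (q : ℝ) ^ 2 := s3.trans s2
      _ ≤ ((A : ℝ) + 2) * C * (C * (1 * den α (m + 1))) ^ 2 :=
          mul_le_mul_of_nonneg_left s4 (by positivity)
      _ = (((A : ℝ) + 2) * C ^ 3) * (den α (m + 1) : ℝ) ^ 2 := by ring
  have s6 : (0 : ℝ) < (den α (m + 1) : ℝ) ^ 2 := by positivity
  nlinarith

/-- countably many limit points along good approximations -/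
theorem pairs_countable (hα : Irrational α) (A : ℕ) (hA : ∀ k, pq α (k + 1) ≤ A) {Q : ℕ → ℕ}
    (hQ : Tendsto Q atTop atTop) {C : ℝ} (hC : 1 ≤ C)
    (h1 : ∀ᶠ k in atTop, (Q (k + 1) : ℝ) ≤ C * Q k)
    (h2 : ∀ᶠ k in atTop, (Q k : ℝ) * |(Q k : ℝ) * α - round ((Q k : ℝ) * α)| ≤ C)
    (hL : {t : UnitAddCircle |
      MapClusterPt t atTop (fun k => ((Q k * β : ℝ) : UnitAddCircle))}.Countable) :
    {p : UnitAddCircle × UnitAddCircle |
      MapClusterPt p atTop (fun k => (pt α β k, pt α β (k + 1)))}.Countable := by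
  set L := {t : UnitAddCircle |
      MapClusterPt t atTop (fun k => ((Q k * β : ℝ) : UnitAddCircle))} with hLdef
  -- the large factor
  obtain ⟨R₀, hR₀⟩ := exists_nat_gt (((A : ℝ) + 2) * C ^ 3)
  set R : ℕ := R₀ + 1 with hRdef
  have hR : 1 ≤ R := by omega
  have hRC : ((A : ℝ) + 2) * C ^ 3 < (R : ℝ) ^ 2 := by
    have : (R : ℝ) = R₀ + 1 := by rw [hRdef]; push_cast; ring
    have h0 : (0 : ℝ) ≤ R₀ := by positivity
    nlinarith
  obtain ⟨κ, hκ, hκ'⟩ := exists_idx hα hQ hC h1 1 le_rfl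
  obtain ⟨μ, hμ, hμ'⟩ := exists_idx hα hQ hC h1 R hR
  -- the bound for the coefficients
  obtain ⟨M, hM1, hM2⟩ : ∃ M : ℤ, ⌊C * (A + 1) + C * ((1 : ℕ) : ℝ)⌋ ≤ M ∧
      ⌊C * (A + 1) + C * (R : ℝ)⌋ ≤ M := ⟨_, le_max_left _ _, le_max_right _ _⟩
  have hcoef : ∀ᶠ n in atTop, ∃ v : ℤ × ℤ × ℤ × ℤ,
      v ∈ (Set.Icc (-M) M ×ˢ Set.Icc (-M) M ×ˢ Set.Icc (-M) M ×ˢ Set.Icc (-M) M) ∧
      v.1 * v.2.2.2 - v.2.1 * v.2.2.1 ≠ 0 ∧
      (Q (κ n) : ℤ) = v.1 * den α n + v.2.1 * den α (n + 1) ∧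
      (Q (μ n) : ℤ) = v.2.2.1 * den α n + v.2.2.2 * den α (n + 1) := by
    filter_upwards [hκ', hμ', hκ.eventually h2, hμ.eventually h2, eventually_ge_atTop 1]
      with n g1 g2 g3 g4 g5
    have g1' : ((1 : ℕ) : ℝ) * den α n ≤ Q (κ n) := g1.1
    obtain ⟨a, b, e1, e2, e3, e4⟩ := coef hα A hA hC g3 1 le_rfl n g5 g1.1 g1.2
    obtain ⟨c, d, f1, f2, f3, f4⟩ := coef hα A hA hC g4 R hR n g5 g2.1 g2.2
    have hind := indep hα A hA hC g4 R hRC n g5 (by simpa using g1.1) (by simpa using g1.2) g2.1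
      e1 e2 f1 f2
    refine ⟨(a, b, c, d), ?_, hind, e1, f1⟩
    simp only [Set.mem_prod, Set.mem_Icc]
    exact ⟨abs_le.1 (e3.trans hM1), abs_le.1 (e4.trans hM1), abs_le.1 (f3.trans hM2),
      abs_le.1 (f4.trans hM2)⟩
  -- the covering set
  have hcover : {p : UnitAddCircle × UnitAddCircle |
      MapClusterPt p atTop (fun k => (pt α β k, pt α β (k + 1)))} ⊆
      ⋃ v : ℤ × ℤ × ℤ × ℤ, ⋃ _ : v.1 * v.2.2.2 - v.2.1 * v.2.2.1 ≠ 0, ⋃ l ∈ L, ⋃ l' ∈ L,
        {x : UnitAddCircle | (v.1 * v.2.2.2 - v.2.1 * v.2.2.1) • x =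
          v.2.2.2 • l - v.2.1 • l'} ×ˢ
        {y : UnitAddCircle | (v.1 * v.2.2.2 - v.2.1 * v.2.2.1) • y =
          v.1 • l' - v.2.2.1 • l} := by
    rintro ⟨x, y⟩ hxy
    rw [Set.mem_ofPred_eq, mapClusterPt_iff_ultrafilter] at hxy
    obtain ⟨U, hU, hUx⟩ := hxy
    have hfin : (Set.Icc (-M) M ×ˢ Set.Icc (-M) M ×ˢ Set.Icc (-M) M ×ˢ Set.Icc (-M) M :
        Set (ℤ × ℤ × ℤ × ℤ)).Finite :=
      (Set.finite_Icc _ _).prod ((Set.finite_Icc _ _).prod
        ((Set.finite_Icc _ _).prod (Set.finite_Icc _ _)))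
    have hev := hU hcoef
    have hev' : ∀ᶠ n in (U : Filter ℕ), ∃ v ∈ (Set.Icc (-M) M ×ˢ Set.Icc (-M) M ×ˢ
        Set.Icc (-M) M ×ˢ Set.Icc (-M) M : Set (ℤ × ℤ × ℤ × ℤ)),
        (v.1 * v.2.2.2 - v.2.1 * v.2.2.1 ≠ 0 ∧
        (Q (κ n) : ℤ) = v.1 * den α n + v.2.1 * den α (n + 1) ∧
        (Q (μ n) : ℤ) = v.2.2.1 * den α n + v.2.2.2 * den α (n + 1)) := hev
    rw [Ultrafilter.eventually_exists_mem_iff hfin] at hev'
    obtain ⟨v, -, hv⟩ := hev'
    have hv0 : v.1 * v.2.2.2 - v.2.1 * v.2.2.1 ≠ 0 := by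
      obtain ⟨n, hn⟩ := hv.exists
      exact hn.1
    have hx : Tendsto (fun n => pt α β n) U (𝓝 x) := (continuous_fst.tendsto (x, y)).comp hUx
    have hy : Tendsto (fun n => pt α β (n + 1)) U (𝓝 y) :=
      (continuous_snd.tendsto (x, y)).comp hUx
    -- limit points of the good approximations
    have hgen : ∀ (ν : ℕ → ℕ) (a b : ℤ), Tendsto ν atTop atTop →
        (∀ᶠ n in (U : Filter ℕ), (Q (ν n) : ℤ) = a * den α n + b * den α (n + 1)) →
        a • x + b • y ∈ L := by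
      intro ν a b hν hab
      show MapClusterPt _ _ _
      rw [mapClusterPt_iff_ultrafilter]
      refine ⟨U.map ν, (Filter.map_mono hU).trans hν, ?_⟩
      rw [Ultrafilter.coe_map, Filter.tendsto_map'_iff]
      have h3 : Tendsto (fun n => a • pt α β n + b • pt α β (n + 1)) U (𝓝 (a • x + b • y)) :=
        (hx.const_smul a).add (hy.const_smul b)
      refine h3.congr' ?_
      filter_upwards [hab] with n hn
      simp only [Function.comp]
      unfold pt
      rw [← AddCircle.coe_zsmul, ← AddCircle.coe_zsmul, ← AddCircle.coe_add]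
      congr 1
      have hnR : (Q (ν n) : ℝ) = a * den α n + b * den α (n + 1) := by exact_mod_cast hn
      rw [hnR, zsmul_eq_mul, zsmul_eq_mul]
      ring
    have l1 := hgen κ v.1 v.2.1 hκ (hv.mono fun n hn => hn.2.1)
    have l2 := hgen μ v.2.2.1 v.2.2.2 hμ (hv.mono fun n hn => hn.2.2)
    simp only [Set.mem_iUnion]
    refine ⟨v, hv0, _, l1, _, l2, ?_, ?_⟩
    · show (v.1 * v.2.2.2 - v.2.1 * v.2.2.1) • x = _
      simp only [smul_add, ← mul_smul, sub_smul]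
      rw [mul_comm v.2.2.2 v.1, mul_comm v.2.2.2 v.2.1]
      abel
    · show (v.1 * v.2.2.2 - v.2.1 * v.2.2.1) • y = _
      simp only [smul_add, ← mul_smul, sub_smul]
      rw [mul_comm v.2.2.1 v.1, mul_comm v.2.2.1 v.2.1]
      abel
  refine Set.Countable.mono hcover ?_
  refine Set.countable_iUnion fun v => ?_
  refine Set.countable_iUnion fun hv => ?_
  refine hL.biUnion fun l _ => ?_
  refine hL.biUnion fun l' _ => ?_
  exact (countable_smul _ hv _).prod (countable_smul _ hv _)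

/-- Main theorem. -/
theorem main (α β : ℝ) (Q : ℕ → ℕ) (hQ : Tendsto Q atTop atTop) (C : ℝ)
    (h1 : ∀ᶠ k in atTop, (Q (k + 1) : ℝ) ≤ C * Q k)
    (h2 : ∀ᶠ k in atTop, (Q k : ℝ) * |(Q k : ℝ) * α - round ((Q k : ℝ) * α)| ≤ C)
    (hL : {t : UnitAddCircle |
      MapClusterPt t atTop (fun k => ((Q k * β : ℝ) : UnitAddCircle))}.Countable)
    (r s r' s' t' : ℚ) : Lit (r + s * α) (r' + s' * β + t' * α) := by
  by_cases hα : Irrational α
  swap
  · exact lit_of_rational hα r s _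
  by_cases hA : ∃ A : ℕ, ∀ k, pq α (k + 1) ≤ A
  swap
  · exact lit_of_unbounded hα hA r s _
  obtain ⟨A, hA⟩ := hA
  have hc := pairs_countable (β := β) hα A hA hQ (C := max C 1) (le_max_right _ _)
    (h1.mono fun k hk => hk.trans (mul_le_mul_of_nonneg_right (le_max_left _ _) (by positivity)))
    (h2.mono fun k hk => hk.trans (le_max_left _ _)) hL
  obtain ⟨D, hD, h⟩ := of_pairs hα A hA hc
  exact lit_of_mult hα D hD h r s r' s' t'

/-- The denominators of the convergents. -/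
theorem main_conv (α β : ℝ) (hα : Irrational α)
    (hL : {t : UnitAddCircle |
      MapClusterPt t atTop (fun k => ((den α k * β : ℝ) : UnitAddCircle))}.Countable)
    (r s r' s' t' : ℚ) : Lit (r + s * α) (r' + s' * β + t' * α) := by
  by_cases hA : ∃ A : ℕ, ∀ k, pq α (k + 1) ≤ A
  swap
  · exact lit_of_unbounded hα hA r s _
  obtain ⟨A, hA⟩ := hA
  have hc : {p : UnitAddCircle × UnitAddCircle |
      MapClusterPt p atTop (fun k => (pt α β k, pt α β (k + 1)))}.Countable := by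
    refine (hL.prod hL).mono ?_
    rintro ⟨x, y⟩ hxy
    have hxy' : MapClusterPt (x, y) atTop (fun k => (pt α β k, pt α β (k + 1))) := hxy
    constructor
    · exact hxy'.continuousAt_comp (f := Prod.fst) continuous_fst.continuousAt
    · have h3 : MapClusterPt y atTop (pt α β ∘ (fun k => k + 1)) :=
        hxy'.continuousAt_comp (f := Prod.snd) continuous_snd.continuousAt
      have h4 : MapClusterPt y (map (fun k => k + 1) atTop) (pt α β) := by
        rw [mapClusterPt_comp] at h3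
        exact h3
      exact h4.mono (tendsto_add_atTop_nat 1)
  obtain ⟨D, hD, h⟩ := of_pairs hα A hA hc
  exact lit_of_mult hα D hD h r s r' s' t'

end Pool.Agent.X126.LC
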