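import Pool.Agent.X126.LC.Good

/-! # Countably many limit points along good approximations -/

set_option autoImplicit false

open Filter Topology Set

namespace Pool.Agent.X126.LC

open Pool.Agent.H380R2.LC

variable {α β : ℝ}

/-- Littlewood's conjecture for the pair `(α, β)`. -/
def Lit (α β : ℝ) : Prop :=
  ∀ ε : ℝ, 0 < ε → ∀ N : ℕ, ∃ q : ℕ, N ≤ q ∧ 0 < q ∧
    (q : ℝ) * |(q : ℝ) * α - (round ((q : ℝ) * α) : ℝ)|
      * |(q : ℝ) * β - (round ((q : ℝ) * β) : ℝ)| < ε

/-- a common denominator -/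
lemma common (r s r' s' t' : ℚ) : ∃ N : ℕ, 1 ≤ N ∧ ∃ a b a' b' c' : ℤ,
    (N : ℚ) * r = a ∧ (N : ℚ) * s = b ∧ (N : ℚ) * r' = a' ∧ (N : ℚ) * s' = b' ∧
      (N : ℚ) * t' = c' := by
  have key : ∀ x : ℚ, (x.den : ℚ) * x = x.num := fun x => Rat.den_mul_eq_num x
  refine ⟨r.den * s.den * r'.den * s'.den * t'.den, ?_, r.num * (s.den * r'.den * s'.den * t'.den),
    s.num * (r.den * r'.den * s'.den * t'.den), r'.num * (r.den * s.den * s'.den * t'.den),
    s'.num * (r.den * s.den * r'.den * t'.den), t'.num * (r.den * s.den * r'.den * s'.den),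
    ?_, ?_, ?_, ?_, ?_⟩
  · have h1 := r.den_pos
    have h2 := s.den_pos
    have h3 := r'.den_pos
    have h4 := s'.den_pos
    have h5 := t'.den_pos
    exact Nat.one_le_iff_ne_zero.mpr (by positivity)
  · push_cast; rw [← key r]; ring
  · push_cast; rw [← key s]; ring
  · push_cast; rw [← key r']; ring
  · push_cast; rw [← key s']; ring
  · push_cast; rw [← key t']; ring

/-- The conclusion from a bounded multiple. -/
theorem lit_of_mult (hα : Irrational α) (D : ℕ) (hD : 1 ≤ D)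
    (h : ∀ δ : ℝ, 0 < δ → ∃ᶠ k in atTop, ‖(D : ℤ) • pt α β k‖ < δ) (r s r' s' t' : ℚ) :
    Lit (r + s * α) (r' + s' * β + t' * α) := by
  intro ε hε N₀
  obtain ⟨N, hN, a, b, a', b', c', e1, e2, e3, e4, e5⟩ := common r s r' s' t'
  have e1' : (N : ℝ) * r = a := by exact_mod_cast e1
  have e2' : (N : ℝ) * s = b := by exact_mod_cast e2
  have e3' : (N : ℝ) * r' = a' := by exact_mod_cast e3
  have e4' : (N : ℝ) * s' = b' := by exact_mod_cast e4
  have e5' : (N : ℝ) * t' = c' := by exact_mod_cast e5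
  set C₁ : ℝ := N * D * (|(b : ℝ)| * D) with hC₁
  set C₂ : ℝ := |(b' : ℝ)| + |(c' : ℝ)| * D + 1 with hC₂
  have hC₁0 : 0 ≤ C₁ := by positivity
  have hC₂0 : 0 < C₂ := by positivity
  set δ : ℝ := ε / ((C₁ + 1) * C₂ * 2) with hδ
  have hδ0 : 0 < δ := by positivity
  have hev : ∀ᶠ k in atTop, |th α k| < δ ∧ (N₀ : ℤ) < den α k ∧ 0 < den α k := by
    filter_upwards [(tendsto_th hα).eventually (Iio_mem_nhds hδ0),
      (tendsto_den hα).eventually_gt_atTop (N₀ : ℤ), (tendsto_den hα).eventually_gt_atTop 0]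
      with k h1 h2 h3
    exact ⟨h1, h2, h3⟩
  obtain ⟨k, hk1, hk2, hk3, hk4⟩ := ((h δ hδ0).and_eventually hev).exists
  obtain ⟨d, hd⟩ : ∃ d : ℕ, (d : ℤ) = den α k := Int.eq_ofNat_of_zero_le hk4.le |>.imp
    (fun q h => h.symm)
  have hdR : (d : ℝ) = den α k := by exact_mod_cast hd
  have hd0 : 0 < d := by omega
  have hdN : N₀ ≤ d := by omega
  refine ⟨N * D * d, ?_, by positivity, ?_⟩
  · calc N₀ ≤ 1 * 1 * d := by omega
      _ ≤ N * D * d := Nat.mul_le_mul_right _ (Nat.mul_le_mul hN hD)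
  -- first factor
  have hnorm : ‖(D : ℤ) • pt α β k‖ = |(D * d * β : ℝ) - round (D * d * β : ℝ)| := by
    unfold pt
    rw [← AddCircle.coe_zsmul, ← hdR, zsmul_eq_mul, UnitAddCircle.norm_eq]
    congr 1
    push_cast
    ring_nf
  have hf1 : |((N * D * d : ℕ) : ℝ) * (r + s * α) - round (((N * D * d : ℕ) : ℝ) * (r + s * α))| ≤
      |(b : ℝ)| * (D * |th α k|) := by
    refine (round_le _ (D * d * a + b * D * num α k)).trans (le_of_eq ?_)
    have : ((N * D * d : ℕ) : ℝ) * (r + s * α) - ((D * d * a + b * D * num α k : ℤ) : ℝ) =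
        b * (D * th α k) := by
      simp only [th]
      push_cast
      rw [← e1', ← e2', ← hdR]
      ring
    rw [this, abs_mul, abs_mul, Nat.abs_cast]
  have hf2 : |((N * D * d : ℕ) : ℝ) * (r' + s' * β + t' * α) -
      round (((N * D * d : ℕ) : ℝ) * (r' + s' * β + t' * α))| ≤
      |(b' : ℝ)| * δ + |(c' : ℝ)| * (D * |th α k|) := by
    refine (round_le _ (D * d * a' + b' * round (D * d * β : ℝ) + c' * D * num α k)).trans ?_
    have : ((N * D * d : ℕ) : ℝ) * (r' + s' * β + t' * α) -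
        ((D * d * a' + b' * round (D * d * β : ℝ) + c' * D * num α k : ℤ) : ℝ) =
        b' * ((D * d * β : ℝ) - round (D * d * β : ℝ)) + c' * (D * th α k) := by
      simp only [th]
      push_cast
      rw [← e3', ← e4', ← e5', ← hdR]
      ring
    rw [this]
    refine (abs_add_le _ _).trans ?_
    rw [abs_mul, abs_mul, abs_mul, Nat.abs_cast, ← hnorm]
    have := mul_le_mul_of_nonneg_left hk1.le (abs_nonneg (b' : ℝ))
    linarith
  have hf2' : |(b' : ℝ)| * δ + |(c' : ℝ)| * (D * |th α k|) ≤ C₂ * δ := by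
    have h1 : |(c' : ℝ)| * (D * |th α k|) ≤ |(c' : ℝ)| * (D * δ) := by
      apply mul_le_mul_of_nonneg_left _ (abs_nonneg _)
      exact mul_le_mul_of_nonneg_left hk2.le (by positivity)
    have h2 : |(b' : ℝ)| * δ + |(c' : ℝ)| * (D * δ) + δ = C₂ * δ := by
      rw [hC₂]; ring
    linarith
  have hq : ((N * D * d : ℕ) : ℝ) * |((N * D * d : ℕ) : ℝ) * (r + s * α) -
      round (((N * D * d : ℕ) : ℝ) * (r + s * α))| ≤ C₁ := by
    calc ((N * D * d : ℕ) : ℝ) * |((N * D * d : ℕ) : ℝ) * (r + s * α) -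
        round (((N * D * d : ℕ) : ℝ) * (r + s * α))| ≤
        ((N * D * d : ℕ) : ℝ) * (|(b : ℝ)| * (D * |th α k|)) :=
          mul_le_mul_of_nonneg_left hf1 (by positivity)
      _ = C₁ * (den α k * |th α k|) := by
          rw [hC₁, ← hdR]
          push_cast
          ring
      _ ≤ C₁ * 1 := mul_le_mul_of_nonneg_left (th_bound hα k) hC₁0
      _ = C₁ := mul_one _
  calc ((N * D * d : ℕ) : ℝ) * |((N * D * d : ℕ) : ℝ) * (r + s * α) -
        round (((N * D * d : ℕ) : ℝ) * (r + s * α))| *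
        |((N * D * d : ℕ) : ℝ) * (r' + s' * β + t' * α) -
          round (((N * D * d : ℕ) : ℝ) * (r' + s' * β + t' * α))|
      ≤ C₁ * (C₂ * δ) := mul_le_mul hq (hf2.trans hf2') (abs_nonneg _) hC₁0
    _ < (C₁ + 1) * C₂ * 2 * δ := by nlinarith [mul_pos hC₂0 hδ0]
    _ = ε := by
        rw [hδ]
        field_simp

/-- unbounded partial quotients -/
theorem lit_of_unbounded (hα : Irrational α) (h : ¬ ∃ A : ℕ, ∀ k, pq α (k + 1) ≤ A)
    (r s : ℚ) (γ : ℝ) : Lit (r + s * α) γ := by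
  intro ε hε N₀
  obtain ⟨N, hN, a, b, -, -, -, e1, e2, -⟩ := common r s 0 0 0
  have e1' : (N : ℝ) * r = a := by exact_mod_cast e1
  have e2' : (N : ℝ) * s = b := by exact_mod_cast e2
  -- a large partial quotient far out
  obtain ⟨k, hk0, hk⟩ : ∃ k, N₀ ≤ k ∧ (N * |(b : ℝ)| + 1) / ε < pq α (k + 1) ∧ (N₀ : ℤ) ≤ den α (k + 1) := by
    obtain ⟨K, hK⟩ := eventually_atTop.1 ((tendsto_den hα).comp
      (tendsto_add_atTop_nat 1) |>.eventually_ge_atTop (N₀ : ℤ))
    by_contra hcon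
    push Not at hcon
    apply h
    obtain ⟨A₁, hA₁⟩ := exists_nat_ge ((N * |(b : ℝ)| + 1) / ε)
    set M := max K N₀ with hM
    refine ⟨A₁ + ∑ i ∈ Finset.range M, (pq α (i + 1)).toNat, fun k => ?_⟩
    rcases lt_or_ge k M with hkM | hkM
    · have h1 : (pq α (k + 1)).toNat ≤ ∑ i ∈ Finset.range M, (pq α (i + 1)).toNat :=
        Finset.single_le_sum (f := fun i => (pq α (i + 1)).toNat) (fun _ _ => Nat.zero_le _)
          (Finset.mem_range.2 hkM)
      push_cast
      have h2 := Int.self_le_toNat (pq α (k + 1))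
      have h3 : ((pq α (k + 1)).toNat : ℤ) ≤ ∑ i ∈ Finset.range M, ((pq α (i + 1)).toNat : ℤ) := by
        exact_mod_cast h1
      have h4 : (0 : ℤ) ≤ A₁ := by positivity
      linarith
    · by_contra hk2
      push Not at hk2
      have h3 : (N * |(b : ℝ)| + 1) / ε < pq α (k + 1) := by
        have h4 : (A₁ : ℤ) < pq α (k + 1) := by
          have h5 : (0 : ℤ) ≤ ((∑ i ∈ Finset.range M, (pq α (i + 1)).toNat : ℕ) : ℤ) := by
            positivity
          push_cast at hk2 h5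
          linarith
        have h5 : (A₁ : ℝ) < pq α (k + 1) := by exact_mod_cast h4
        linarith
      have h4 := hcon k (le_trans (le_max_right _ _) hkM) h3
      have h5 := hK k (le_trans (le_max_left _ _) hkM)
      simp only [Function.comp] at h5
      omega
  obtain ⟨hk1, hk2⟩ := hk
  obtain ⟨d, hd⟩ : ∃ d : ℕ, (d : ℤ) = den α (k + 1) :=
    Int.eq_ofNat_of_zero_le (den_nonneg hα _) |>.imp (fun q h => h.symm)
  have hdR : (d : ℝ) = den α (k + 1) := by exact_mod_cast hd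
  have hd1 := den_pos hα k
  have hd0 : 0 < d := by omega
  refine ⟨N * d, ?_, by positivity, ?_⟩
  · calc N₀ ≤ 1 * d := by omega
      _ ≤ N * d := Nat.mul_le_mul_right _ hN
  have hf1 : |((N * d : ℕ) : ℝ) * (r + s * α) - round (((N * d : ℕ) : ℝ) * (r + s * α))| ≤
      |(b : ℝ)| * |th α (k + 1)| := by
    refine (round_le _ (d * a + b * num α (k + 1))).trans (le_of_eq ?_)
    have : ((N * d : ℕ) : ℝ) * (r + s * α) - ((d * a + b * num α (k + 1) : ℤ) : ℝ) =
        b * th α (k + 1) := by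
      simp only [th]
      push_cast
      rw [← e1', ← e2', ← hdR]
      ring
    rw [this, abs_mul]
  have hf2 : |((N * d : ℕ) : ℝ) * γ - round (((N * d : ℕ) : ℝ) * γ)| ≤ 1 / 2 :=
    abs_sub_round _
  have hpq : (pq α (k + 1) : ℝ) * ((d : ℝ) * |th α (k + 1)|) ≤ 1 := by
    have h1 := den_mul_th hα (k + 1)
    have h2 : (pq α (k + 1) : ℝ) * d ≤ den α (k + 2) := by
      have : pq α (k + 1) * den α (k + 1) ≤ den α (k + 2) := by
        have e : den α (k + 2) = pq α (k + 1) * den α (k + 1) + den α k := rfl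
        have := den_nonneg hα k
        omega
      rw [hdR]
      exact_mod_cast this
    calc (pq α (k + 1) : ℝ) * ((d : ℝ) * |th α (k + 1)|) =
        ((pq α (k + 1) : ℝ) * d) * |th α (k + 1)| := by ring
      _ ≤ den α (k + 2) * |th α (k + 1)| := mul_le_mul_of_nonneg_right h2 (abs_nonneg _)
      _ ≤ 1 := h1
  have hpos : (0 : ℝ) < pq α (k + 1) := by
    have := pq_pos hα k
    exact_mod_cast (by omega : 0 < pq α (k + 1))
  have hX : 0 ≤ (d : ℝ) * |th α (k + 1)| := by positivity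
  have hX2 : (N * |(b : ℝ)| + 1) * ((d : ℝ) * |th α (k + 1)|) ≤ ε := by
    rw [div_lt_iff₀ hε] at hk1
    have h1 : (N * |(b : ℝ)| + 1) * ((d : ℝ) * |th α (k + 1)|) ≤
        (pq α (k + 1) * ε) * ((d : ℝ) * |th α (k + 1)|) :=
      mul_le_mul_of_nonneg_right hk1.le hX
    have h2 : (pq α (k + 1) * ε) * ((d : ℝ) * |th α (k + 1)|) =
        ε * (pq α (k + 1) * ((d : ℝ) * |th α (k + 1)|)) := by ring
    rw [h2] at h1
    nlinarith
  have hX3 : ((N * d : ℕ) : ℝ) * |((N * d : ℕ) : ℝ) * (r + s * α) -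
      round (((N * d : ℕ) : ℝ) * (r + s * α))| ≤ ε := by
    calc ((N * d : ℕ) : ℝ) * |((N * d : ℕ) : ℝ) * (r + s * α) -
        round (((N * d : ℕ) : ℝ) * (r + s * α))| ≤
        ((N * d : ℕ) : ℝ) * (|(b : ℝ)| * |th α (k + 1)|) :=
          mul_le_mul_of_nonneg_left hf1 (by positivity)
      _ = N * |(b : ℝ)| * ((d : ℝ) * |th α (k + 1)|) := by push_cast; ring
      _ ≤ ε := by nlinarith
  calc ((N * d : ℕ) : ℝ) * |((N * d : ℕ) : ℝ) * (r + s * α) -
        round (((N * d : ℕ) : ℝ) * (r + s * α))| *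
        |((N * d : ℕ) : ℝ) * γ - round (((N * d : ℕ) : ℝ) * γ)| ≤ ε * (1 / 2) :=
        mul_le_mul hX3 hf2 (abs_nonneg _) hε.le
    _ < ε := by linarith

/-- rational numbers -/
theorem lit_of_rational (h : ¬ Irrational α) (r s : ℚ) (γ : ℝ) : Lit (r + s * α) γ := by
  unfold Irrational at h
  push Not at h
  obtain ⟨x, rfl⟩ := h
  intro ε hε N₀
  set y : ℚ := r + s * x with hy
  have hyR : (r : ℝ) + s * ((x : ℚ) : ℝ) = y := by rw [hy]; push_cast; ring
  refine ⟨(N₀ + 1) * y.den, ?_, by have := y.den_pos; positivity, ?_⟩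
  · have := y.den_pos
    nlinarith
  · have h1 : (((N₀ + 1) * y.den : ℕ) : ℝ) * ((r : ℝ) + s * ((x : ℚ) : ℝ)) =
        (((N₀ + 1) * y.num : ℤ) : ℝ) := by
      rw [hyR]
      have h2 : (y.den : ℝ) * y = y.num := by exact_mod_cast Rat.den_mul_eq_num y
      push_cast
      rw [mul_assoc, h2]
    rw [h1, round_intCast, sub_self, abs_zero, mul_zero, zero_mul]
    exact hε

end Pool.Agent.X126.LC
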