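import Pool.Agent.X126.LC.Pairs

/-! # From good approximations to convergents -/

set_option autoImplicit false

open Filter Topology Set

namespace Pool.Agent.X126.LC

open Pool.Agent.H380R2.LC

variable {α β : ℝ}

lemma den_mono (hα : Irrational α) {i j : ℕ} (h : i ≤ j) : den α i ≤ den α j :=
  Q_le (A := fun k => pq α (k + 1)) (Q := den α) (fun k => pq_pos hα k) rfl rfl (fun _ => rfl) h

lemma den_grow (hα : Irrational α) (t : ℕ) : (2 : ℤ) ^ t ≤ den α (1 + 2 * t) := by
  have h := Q_grow (A := fun k => pq α (k + 1)) (Q := den α) (fun k => pq_pos hα k) rfl rfl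
    (fun _ => rfl) 1 t
  have h1 : den α 1 = 1 := rfl
  rwa [h1, mul_one] at h

lemma den_pos (hα : Irrational α) (k : ℕ) : 1 ≤ den α (k + 1) := by
  have h1 : den α 1 = 1 := rfl
  have h2 := den_mono hα (show 1 ≤ k + 1 by omega)
  omega

lemma tendsto_den (hα : Irrational α) : Tendsto (den α) atTop atTop := by
  apply tendsto_atTop_mono' (f₁ := fun k : ℕ => ((k : ℤ) / 2 : ℤ)) (l := atTop)
  · filter_upwards [eventually_ge_atTop 1] with k hk
    obtain ⟨t, ht⟩ : ∃ t, t = (k - 1) / 2 := ⟨_, rfl⟩
    have h1 : 1 + 2 * t ≤ k := by omega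
    have h2 := den_mono hα h1
    have h3 := den_grow hα t
    have h4 : (t : ℤ) + 1 ≤ 2 ^ t := by exact_mod_cast Nat.lt_two_pow_self
    have h5 : (k : ℤ) / 2 ≤ t + 1 := by omega
    omega
  · rw [tendsto_atTop]
    intro b
    filter_upwards [eventually_ge_atTop (2 * b).toNat] with k hk
    omega

lemma th_bound (hα : Irrational α) (k : ℕ) : (den α k : ℝ) * |th α k| ≤ 1 := by
  have h1 := den_mul_th hα k
  have h2 : (den α k : ℝ) ≤ den α (k + 1) := by exact_mod_cast den_mono hα (Nat.le_succ k)
  exact (mul_le_mul_of_nonneg_right h2 (abs_nonneg _)).trans h1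

lemma tendsto_th (hα : Irrational α) : Tendsto (fun k => |th α k|) atTop (𝓝 0) := by
  have h1 : Tendsto (fun k => ((den α (k + 1) : ℤ) : ℝ)⁻¹) atTop (𝓝 0) := by
    have h2 : Tendsto (fun k : ℕ => ((den α (k + 1) : ℤ) : ℝ)) atTop atTop :=
      tendsto_intCast_atTop_atTop.comp ((tendsto_den hα).comp (tendsto_add_atTop_nat 1))
    exact tendsto_inv_atTop_zero.comp h2
  refine squeeze_zero (fun _ => abs_nonneg _) (fun k => ?_) h1
  have h2 := den_mul_th hα k
  have h3 : (0 : ℝ) < den α (k + 1) := by exact_mod_cast (by have := den_pos hα k; omega)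
  rw [← one_div, le_div_iff₀ h3, mul_comm]
  exact h2

lemma th_sign (hα : Irrational α) (k : ℕ) : th α (k + 1) * th α k ≤ 0 := by
  rw [th_succ hα k]
  have := Int.fract_nonneg (cq α k)
  nlinarith [mul_self_nonneg (th α k)]

lemma th_ne (hα : Irrational α) (k : ℕ) : th α k ≠ 0 := by
  intro h
  have h1 := det_abs α k
  rw [th_succ hα k, h] at h1
  simp at h1

/-- representation in the basis of two consecutive convergents -/
lemma repr (α : ℝ) (n : ℕ) (q p : ℤ) : ∃ a b : ℤ, q = a * den α n + b * den α (n + 1) ∧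
    p = a * num α n + b * num α (n + 1) ∧
    |(a : ℝ)| = |((q : ℝ) * α - p) * den α (n + 1) - q * th α (n + 1)| ∧
    |(b : ℝ)| = |((q : ℝ) * α - p) * den α n - q * th α n| := by
  have hdet : (den α (n + 1)) * (num α n) - den α n * num α (n + 1) = - (-1) ^ (n + 1) := by
    have h1 := det_eq α n
    have h2 : ((den α (n + 1) * num α n - den α n * num α (n + 1) : ℤ) : ℝ) =
        -((den α (n + 1) : ℝ) * th α n - den α n * th α (n + 1)) := by
      simp only [th]
      push_cast
      ring
    rw [h1] at h2
    exact_mod_cast h2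
  set s : ℤ := - (-1) ^ (n + 1) with hs
  have hs1 : s * s = 1 := by
    rw [hs]
    have : ((-1 : ℤ) ^ (n + 1)) * (-1) ^ (n + 1) = 1 := by rw [← mul_pow]; simp
    linarith
  have hsa : |(s : ℝ)| = 1 := by
    have : |s| * |s| = 1 := by rw [← abs_mul, hs1, abs_one]
    have h3 : |s| = 1 := by nlinarith [abs_nonneg s]
    exact_mod_cast h3
  refine ⟨s * (p * den α (n + 1) - q * num α (n + 1)), s * (q * num α n - p * den α n), ?_, ?_,
    ?_, ?_⟩
  · have : s * (p * den α (n + 1) - q * num α (n + 1)) * den α n +
        s * (q * num α n - p * den α n) * den α (n + 1) =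
        s * (den α (n + 1) * num α n - den α n * num α (n + 1)) * q := by ring
    rw [this, hdet, hs1, one_mul]
  · have : s * (p * den α (n + 1) - q * num α (n + 1)) * num α n +
        s * (q * num α n - p * den α n) * num α (n + 1) =
        s * (den α (n + 1) * num α n - den α n * num α (n + 1)) * p := by ring
    rw [this, hdet, hs1, one_mul]
  · have : ((s * (p * den α (n + 1) - q * num α (n + 1)) : ℤ) : ℝ) =
        -s * (((q : ℝ) * α - p) * den α (n + 1) - q * th α (n + 1)) := by
      simp only [th]
      push_cast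
      ring
    rw [this, abs_mul, abs_neg, hsa, one_mul]
  · have : ((s * (q * num α n - p * den α n) : ℤ) : ℝ) =
        s * (((q : ℝ) * α - p) * den α n - q * th α n) := by
      simp only [th]
      push_cast
      ring
    rw [this, abs_mul, hsa, one_mul]

/-- badly approximable: lower bound -/
lemma lower (hα : Irrational α) (A : ℕ) (hA : ∀ k, pq α (k + 1) ≤ A) (q p : ℤ) (hq : 1 ≤ q) :
    1 ≤ ((A : ℝ) + 2) * (q * |(q : ℝ) * α - p|) := by
  -- the scale
  have hex : ∃ n, q < den α (n + 1) := by
    have := ((tendsto_den hα).comp (tendsto_add_atTop_nat 1)).eventually_gt_atTop q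
    exact this.exists
  classical
  set n := Nat.find hex with hn
  have hn1 : q < den α (n + 1) := Nat.find_spec hex
  have hn0 : n ≠ 0 := by
    intro h
    rw [h] at hn1
    have : den α (0 + 1) = 1 := rfl
    omega
  have hn2 : den α n ≤ q := by
    have := Nat.find_min hex (m := n - 1) (by omega)
    rw [show n - 1 + 1 = n by omega] at this
    omega
  obtain ⟨a, b, h1, h2, -, -⟩ := repr α n q p
  have hd0 := den_nonneg hα n
  have he : (q : ℝ) * α - p = a * th α n + b * th α (n + 1) := by
    simp only [th]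
    rw [h1, h2]
    push_cast
    ring
  have hs := th_sign hα n
  -- `a ≠ 0` and the signs are opposite
  have ha : a ≠ 0 := by
    rintro rfl
    rw [zero_mul, zero_add] at h1
    have hb : 0 < b := by
      by_contra hb
      push Not at hb
      nlinarith
    nlinarith
  have hab : a * b ≤ 0 := by
    by_contra hab
    push Not at hab
    have hd : 1 ≤ den α n := by
      have := den_pos hα (n - 1)
      rwa [show n - 1 + 1 = n by omega] at this
    rcases lt_or_gt_of_ne ha with h | h
    · have hb : b < 0 := by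
        by_contra hb
        push Not at hb
        nlinarith
      nlinarith
    · have hb : 0 < b := by
        by_contra hb
        push Not at hb
        nlinarith
      nlinarith
  have hth : |th α n| ≤ |(q : ℝ) * α - p| := by
    rw [he]
    have hab' : ((a : ℝ) * b) ≤ 0 := by exact_mod_cast hab
    have h3 : 0 ≤ ((a : ℝ) * th α n) * (b * th α (n + 1)) := by
      have : ((a : ℝ) * th α n) * (b * th α (n + 1)) = (a * b) * (th α (n + 1) * th α n) := by ring
      rw [this]
      exact mul_nonneg_of_nonpos_of_nonpos hab' hs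
    have h4 : |(a : ℝ) * th α n| ≤ |(a : ℝ) * th α n + b * th α (n + 1)| := by
      rw [← sq_le_sq]
      nlinarith [mul_self_nonneg ((b : ℝ) * th α (n + 1))]
    refine le_trans ?_ h4
    rw [abs_mul]
    have : (1 : ℝ) ≤ |(a : ℝ)| := by exact_mod_cast Int.one_le_abs ha
    nlinarith [abs_nonneg (th α n)]
  -- the size of `th`
  have hsz : 1 ≤ ((A : ℝ) + 2) * (den α n * |th α n|) := by
    have h5 := det_abs α n
    have h6 : |(den α (n + 1) : ℝ) * th α n - den α n * th α (n + 1)| ≤
        den α (n + 1) * |th α n| + den α n * |th α (n + 1)| := by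
      refine (abs_sub _ _).trans (le_of_eq ?_)
      have e1 : |(den α (n + 1) : ℝ)| = den α (n + 1) :=
        abs_of_nonneg (by exact_mod_cast den_nonneg hα (n + 1))
      have e2 : |(den α n : ℝ)| = den α n :=
        abs_of_nonneg (by exact_mod_cast den_nonneg hα n)
      rw [abs_mul, abs_mul, e1, e2]
    rw [h5] at h6
    have h7 := th_mono hα n
    have h8 : (den α (n + 1) : ℝ) ≤ (A + 1) * den α n := by
      obtain ⟨m, hm⟩ : ∃ m, n = m + 1 := ⟨n - 1, by omega⟩
      rw [hm]
      have e : den α (m + 1 + 1) = pq α (m + 1) * den α (m + 1) + den α m := rfl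
      have e1 := hA m
      have e2 := den_mono hα (Nat.le_succ m)
      have e3 := den_pos hα m
      have : den α (m + 1 + 1) ≤ ((A : ℤ) + 1) * den α (m + 1) := by
        rw [e]
        nlinarith
      exact_mod_cast this
    have hd0' : (0 : ℝ) ≤ den α n := by exact_mod_cast hd0
    have h9 : (den α n : ℝ) * |th α (n + 1)| ≤ den α n * |th α n| :=
      mul_le_mul_of_nonneg_left h7 hd0'
    have h10 : (den α (n + 1) : ℝ) * |th α n| ≤ ((A + 1) * den α n) * |th α n| :=
      mul_le_mul_of_nonneg_right h8 (abs_nonneg _)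
    nlinarith
  refine hsz.trans ?_
  apply mul_le_mul_of_nonneg_left _ (by positivity)
  have hq' : (den α n : ℝ) ≤ q := by exact_mod_cast hn2
  have hd0' : (0 : ℝ) ≤ den α n := by exact_mod_cast hd0
  exact mul_le_mul hq' hth (abs_nonneg _) (by linarith)

end Pool.Agent.X126.LC
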