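import Pool.Agent.X126.LC.Recur
import Pool.Agent.H380R2.CodeCF

/-! # Limit points of the pairs `(q_k β, q_{k+1} β)` -/

set_option autoImplicit false

open Filter Topology Set

namespace Pool.Agent.X126.LC

open Pool.Agent.H380R2.LC

/-- `(x, y) ↦ (y, a y + x)` -/
def E (a : ℤ) (p : UnitAddCircle × UnitAddCircle) : UnitAddCircle × UnitAddCircle :=
  (p.2, a • p.2 + p.1)

lemma continuous_E (a : ℤ) : Continuous (E a) := by
  unfold E
  fun_prop

lemma comp_E (A : ℕ) (l : List (Fin A)) (hl : l ≠ []) :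
    ∃ P Q R S : ℤ, (∀ x y : UnitAddCircle,
      comp (fun i : Fin A => E ((i : ℤ) + 1)) l (x, y) = (P • x + Q • y, R • x + S • y)) ∧
      0 ≤ P ∧ 1 ≤ Q ∧ 1 ≤ R ∧ 1 ≤ S ∧ (P * S - Q * R = 1 ∨ P * S - Q * R = -1) ∧
      (P - 1) * (S - 1) - Q * R < 0 := by
  induction l with
  | nil => exact absurd rfl hl
  | cons i l ih =>
    set a : ℤ := (i : ℤ) + 1 with ha
    have ha1 : 1 ≤ a := by
      have : (0 : ℤ) ≤ (i : ℤ) := by positivity
      omega
    by_cases hl' : l = []
    · subst hl'
      refine ⟨0, 1, 1, a, ?_, le_rfl, le_rfl, le_rfl, ha1, Or.inr (by ring), by nlinarith⟩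
      intro x y
      simp only [comp, E, ← ha]
      simp [add_comm]
    · obtain ⟨P, Q, R, S, h1, hP, hQ, hR, hS, hdet, hD⟩ := ih hl'
      refine ⟨R, S, a * R + P, a * S + Q, ?_, by omega, hS, by nlinarith, by nlinarith, ?_, ?_⟩
      · intro x y
        simp only [comp]
        rw [h1]
        simp only [E, ← ha]
        refine Prod.ext rfl ?_
        simp only [add_smul, mul_smul, smul_add]
        abel
      · have e : R * (a * S + Q) - S * (a * R + P) = -(P * S - Q * R) := by ring
        rw [e]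
        rcases hdet with h | h <;> rw [h] <;> simp
      · have e : (R - 1) * (a * S + Q - 1) - S * (a * R + P) =
            -(P * S - Q * R) - R - a * S - Q + 1 := by ring
        rw [e]
        have : 1 ≤ a * S := by nlinarith
        rcases hdet with h | h <;> rw [h] <;> omega

/-- the point `q_{k-1} β` of the circle -/
noncomputable def pt (α β : ℝ) (k : ℕ) : UnitAddCircle := ((den α k * β : ℝ) : UnitAddCircle)

lemma pt_rec (α β : ℝ) (k : ℕ) :
    pt α β (k + 2) = pq α (k + 1) • pt α β (k + 1) + pt α β k := by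
  unfold pt
  rw [← AddCircle.coe_zsmul, ← AddCircle.coe_add]
  congr 1
  simp only [den]
  rw [zsmul_eq_mul]
  push_cast
  ring

/-- If the pairs have countably many limit points and the partial quotients are bounded, then a
bounded multiple of `q_k β` is close to an integer infinitely often. -/
theorem of_pairs {α β : ℝ} (hα : Irrational α) (A : ℕ) (hA : ∀ k, pq α (k + 1) ≤ A)
    (hc : {p : UnitAddCircle × UnitAddCircle |
      MapClusterPt p atTop (fun k => (pt α β k, pt α β (k + 1)))}.Countable) :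
    ∃ D : ℕ, 1 ≤ D ∧ ∀ δ : ℝ, 0 < δ → ∃ᶠ k in atTop, ‖(D : ℤ) • pt α β k‖ < δ := by
  set u : ℕ → UnitAddCircle × UnitAddCircle := fun k => (pt α β k, pt α β (k + 1)) with hu
  set P : Set (UnitAddCircle × UnitAddCircle) := {p | MapClusterPt p atTop u} with hP
  have hne : P.Nonempty := by
    obtain ⟨p, hp⟩ := exists_clusterPt_of_compactSpace (map u atTop)
    exact ⟨p, hp⟩
  have hcl : IsClosed P := isClosed_setOfPred_clusterPt
  have hstep : ∀ j, ∃ i : Fin A, u (j + 1) = (fun i : Fin A => E ((i : ℤ) + 1)) i (u j) := by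
    intro j
    have h1 := pq_pos hα j
    have h2 := hA j
    refine ⟨⟨(pq α (j + 1) - 1).toNat, by omega⟩, ?_⟩
    have h3 : (((⟨(pq α (j + 1) - 1).toNat, by omega⟩ : Fin A) : ℕ) : ℤ) + 1 = pq α (j + 1) := by
      simp only
      omega
    simp only [hu, E]
    rw [h3, ← pt_rec]
  have hadm := limit_adm (fun i : Fin A => continuous_E ((i : ℤ) + 1)) hstep
  obtain ⟨⟨x, y⟩, hxy, l, hl, hfix⟩ := recur (fun i : Fin A => continuous_E ((i : ℤ) + 1)) hcl hne
    hadm hc
  obtain ⟨a, b, c, d, h1, -, -, -, -, -, hD⟩ := comp_E A l hl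
  rw [h1, Prod.mk.injEq] at hfix
  obtain ⟨f1, f2⟩ := hfix
  set D : ℤ := (a - 1) * (d - 1) - b * c with hDdef
  have hDx : D • x = 0 := by
    have g1 : (a - 1) • x + b • y = 0 := by
      rw [sub_smul, one_smul]
      have : a • x - x + b • y = (a • x + b • y) - x := by abel
      rw [this, f1, sub_self]
    have g2 : c • x + (d - 1) • y = 0 := by
      rw [sub_smul, one_smul]
      have : c • x + (d • y - y) = (c • x + d • y) - y := by abel
      rw [this, f2, sub_self]
    have g3 : (d - 1) • ((a - 1) • x + b • y) - b • (c • x + (d - 1) • y) = D • x := by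
      rw [hDdef]
      simp only [smul_add, ← mul_smul]
      rw [sub_smul ((a - 1) * (d - 1)) (b * c) x, mul_comm (d - 1) (a - 1), mul_comm (d - 1) b]
      abel
    rw [← g3, g1, g2]
    simp
  refine ⟨D.natAbs, by omega, fun δ hδ => ?_⟩
  have hx : MapClusterPt x atTop (pt α β) := by
    have h2 : MapClusterPt (x, y) atTop u := hxy
    have h3 := h2.continuousAt_comp (f := Prod.fst) continuous_fst.continuousAt
    exact h3
  have hx0 : (D.natAbs : ℤ) • x = 0 := by
    rcases Int.natAbs_eq D with h | h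
    · rw [← h]; exact hDx
    · have : (D.natAbs : ℤ) = -D := by omega
      rw [this, neg_smul, hDx, neg_zero]
  have hcont : Continuous (fun z : UnitAddCircle => ‖(D.natAbs : ℤ) • z‖) := by fun_prop
  have h4 : MapClusterPt (‖(D.natAbs : ℤ) • x‖) atTop
      ((fun z : UnitAddCircle => ‖(D.natAbs : ℤ) • z‖) ∘ pt α β) :=
    hx.continuousAt_comp (f := fun z : UnitAddCircle => ‖(D.natAbs : ℤ) • z‖)
      hcont.continuousAt
  rw [hx0, norm_zero] at h4
  have h5 := h4.frequently (Iio_mem_nhds hδ)
  exact h5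

end Pool.Agent.X126.LC
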