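import Mathlib

/-! # Countable limit sets of finitely valued continuous relations

Let `F` be a finite family of continuous self-maps of a compact metrizable space and let `u` be a
sequence with `u (j+1) = f (u j)` for some `f` in the family, for every `j`. If the set of limit
points of `u` is countable then some limit point is a fixed point of a nonempty composition. -/

set_option autoImplicit false

open Filter Topology Set

namespace Pool.Agent.X126.LC

variable {X ι : Type*}

/-- `K` is admissible: every point has a successor in `K`. -/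
def Adm (F : ι → X → X) (K : Set X) : Prop := ∀ x ∈ K, ∃ i, F i x ∈ K

/-- the points reachable from `x` inside `K` in at least one step -/
inductive Reach (F : ι → X → X) (K : Set X) (x : X) : List ι → X → Prop
  | one (i : ι) (h : F i x ∈ K) : Reach F K x [i] (F i x)
  | step (l : List ι) (y : X) (i : ι) (hy : Reach F K x l y) (h : F i y ∈ K) :
      Reach F K x (i :: l) (F i y)

/-- composition along a list, the last entry of the list is applied first -/
def comp (F : ι → X → X) : List ι → X → X
  | [], x => x
  | i :: l, x => F i (comp F l x)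

lemma Reach.eq {F : ι → X → X} {K : Set X} {x y : X} {l : List ι} (h : Reach F K x l y) :
    y = comp F l x ∧ l ≠ [] ∧ y ∈ K := by
  induction h with
  | one i h => exact ⟨rfl, by simp, h⟩
  | step l y i hy h ih => exact ⟨by rw [ih.1]; rfl, by simp, h⟩

theorem limit_adm [TopologicalSpace X] [CompactSpace X] [T2Space X] [Finite ι] {F : ι → X → X}
    (hF : ∀ i, Continuous (F i)) {u : ℕ → X} (hu : ∀ j, ∃ i, u (j + 1) = F i (u j)) :
    Adm F {x | MapClusterPt x atTop u} := by
  intro x hx
  choose c hc using hu
  rw [Set.mem_ofPred_eq, mapClusterPt_iff_ultrafilter] at hx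
  obtain ⟨U, hU, hUx⟩ := hx
  -- the choice is constant along the ultrafilter
  obtain ⟨i, hi⟩ : ∃ i, ∀ᶠ j in (U : Filter ℕ), c j = i := by
    have h1 : ∀ᶠ j in (U : Filter ℕ), ∃ i ∈ (Set.univ : Set ι), c j = i := by
      filter_upwards with j
      exact ⟨_, mem_univ _, rfl⟩
    rw [Ultrafilter.eventually_exists_mem_iff (Set.toFinite _)] at h1
    obtain ⟨i, -, hi⟩ := h1
    exact ⟨i, hi⟩
  refine ⟨i, ?_⟩
  show MapClusterPt _ _ _
  rw [mapClusterPt_iff_ultrafilter]
  refine ⟨U.map (fun j => j + 1), ?_, ?_⟩
  · have : Tendsto (fun j : ℕ => j + 1) atTop atTop := tendsto_add_atTop_nat 1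
    exact (Filter.map_mono hU).trans this
  · rw [Ultrafilter.coe_map, Filter.tendsto_map'_iff]
    have h2 : Tendsto (fun j => F i (u j)) U (𝓝 (F i x)) := ((hF i).tendsto x).comp hUx
    refine h2.congr' ?_
    filter_upwards [hi] with j hj
    simp only [Function.comp]
    rw [hc j, hj]

/-- A minimal nonempty closed admissible subset. -/
theorem exists_minimal [TopologicalSpace X] [CompactSpace X] [T2Space X] [Finite ι] {F : ι → X → X}
    (hF : ∀ i, Continuous (F i)) {P : Set X} (hP : IsClosed P) (hne : P.Nonempty)
    (hadm : Adm F P) :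
    ∃ K ⊆ P, IsClosed K ∧ K.Nonempty ∧ Adm F K ∧
      ∀ K' ⊆ K, IsClosed K' → K'.Nonempty → Adm F K' → K' = K := by
  obtain ⟨K, hK, hmin⟩ := zorn_superset_nonempty
    {K : Set X | IsClosed K ∧ K.Nonempty ∧ Adm F K} (by
      intro C hC hchain hCne
      refine ⟨⋂₀ C, ⟨?_, ?_, ?_⟩, fun s hs => sInter_subset_of_mem hs⟩
      · exact isClosed_sInter fun s hs => (hC hs).1
      · have hdir : DirectedOn (fun a b : Set X => a ⊇ b) C := by
          intro a ha b hb
          rcases hchain.total ha hb with h | h
          · exact ⟨a, ha, le_refl a, h⟩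
          · exact ⟨b, hb, h, le_refl b⟩
        have := hCne.to_subtype
        exact IsCompact.nonempty_sInter_of_directed_nonempty_isCompact_isClosed
          hdir (fun s hs => (hC hs).2.1)
          (fun s hs => (hC hs).1.isCompact) (fun s hs => (hC hs).1)
      · intro x hx
        by_contra hcon
        push Not at hcon
        have h1 : ∀ i, ∃ s ∈ C, F i x ∉ s := by
          intro i
          have := hcon i
          rw [mem_sInter] at this
          push Not at this
          exact this
        choose s hs hxs using h1
        have := Fintype.ofFinite ι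
        classical
        -- a smallest member of the finite family
        obtain ⟨t, ht, hts⟩ : ∃ t ∈ C, ∀ i, t ⊆ s i := by
          have key : ∀ A : Finset ι, ∃ t ∈ C, ∀ i ∈ A, t ⊆ s i := by
            intro A
            induction A using Finset.induction_on with
            | empty =>
              obtain ⟨t, ht⟩ := hCne
              exact ⟨t, ht, by simp⟩
            | insert a A _ ih =>
              obtain ⟨t, ht, htA⟩ := ih
              rcases hchain.total ht (hs a) with h | h
              · refine ⟨t, ht, ?_⟩
                intro i hi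
                rcases Finset.mem_insert.1 hi with rfl | hi
                · exact h
                · exact htA i hi
              · refine ⟨s a, hs a, ?_⟩
                intro i hi
                rcases Finset.mem_insert.1 hi with rfl | hi
                · exact le_refl _
                · exact h.trans (htA i hi)
          obtain ⟨t, ht, htA⟩ := key Finset.univ
          exact ⟨t, ht, fun i => htA i (Finset.mem_univ _)⟩
        obtain ⟨i, hi⟩ := (hC ht).2.2 x (mem_sInter.1 hx t ht)
        exact hxs i (hts i hi)) P ⟨hP, hne, hadm⟩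
  refine ⟨K, hK, hmin.prop.1, hmin.prop.2.1, hmin.prop.2.2, ?_⟩
  intro K' hK' h1 h2 h3
  exact (hmin.eq_of_subset ⟨h1, h2, h3⟩ hK')

theorem recur [TopologicalSpace X] [CompactSpace X] [T2Space X] [Finite ι] {F : ι → X → X}
    (hF : ∀ i, Continuous (F i)) {P : Set X} (hP : IsClosed P) (hne : P.Nonempty)
    (hadm : Adm F P) (hcount : P.Countable) :
    ∃ x ∈ P, ∃ l : List ι, l ≠ [] ∧ comp F l x = x := by
  obtain ⟨K, hKP, hKc, hKne, hKadm, hmin⟩ := exists_minimal hF hP hne hadm
  -- an isolated point
  obtain ⟨x, hxK, V, hV, hVx⟩ : ∃ x ∈ K, ∃ V : Set X, IsOpen V ∧ V ∩ K = {x} := by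
    have : CompactSpace K := isCompact_iff_compactSpace.1 hKc.isCompact
    have : Nonempty K := hKne.to_subtype
    have : Countable K := (hcount.mono hKP).to_subtype
    have h1 : (⋃ x : K, ({x} : Set K)) = univ := by
      ext x
      simp
    obtain ⟨x, hx⟩ := nonempty_interior_of_iUnion_of_closed (fun x : K => isClosed_singleton) h1
    obtain ⟨y, hy⟩ := hx
    have hy' : y = x := by simpa using interior_subset hy
    subst hy'
    obtain ⟨V, hV, hVe⟩ := isOpen_induced_iff.1 (isOpen_interior (s := ({y} : Set K)))
    refine ⟨y, y.2, V, hV, ?_⟩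
    ext z
    constructor
    · rintro ⟨hz1, hz2⟩
      have : (⟨z, hz2⟩ : K) ∈ Subtype.val ⁻¹' V := hz1
      rw [hVe] at this
      have := interior_subset this
      simp only [mem_singleton_iff] at this ⊢
      rw [← this]
    · intro hz
      rw [mem_singleton_iff] at hz
      subst hz
      refine ⟨?_, y.2⟩
      have : y ∈ Subtype.val ⁻¹' V := by rw [hVe]; exact hy
      exact this
  -- the closure of the reachable set
  set R : Set X := {y | ∃ l, Reach F K x l y} with hR
  have hRK : R ⊆ K := by
    rintro y ⟨l, hl⟩
    exact hl.eq.2.2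
  have hRne : R.Nonempty := by
    obtain ⟨i, hi⟩ := hKadm x hxK
    exact ⟨_, [i], Reach.one i hi⟩
  have hCadm : Adm F (closure R) := by
    have := Fintype.ofFinite ι
    intro y hy
    have h1 : R ⊆ ⋃ i, F i ⁻¹' (closure R) := by
      rintro z ⟨l, hl⟩
      obtain ⟨i, hi⟩ := hKadm z hl.eq.2.2
      exact mem_iUnion.2 ⟨i, subset_closure ⟨i :: l, Reach.step l z i hl hi⟩⟩
    have h2 : IsClosed (⋃ i, F i ⁻¹' (closure R)) :=
      isClosed_iUnion_of_finite fun i => isClosed_closure.preimage (hF i)
    have h3 := closure_minimal h1 h2 hy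
    exact mem_iUnion.1 h3
  have hCK : closure R = K :=
    hmin _ (closure_minimal hRK hKc) isClosed_closure hRne.closure hCadm
  have hxC : x ∈ closure R := by rw [hCK]; exact hxK
  have hxV : x ∈ V := by
    have : x ∈ V ∩ K := by rw [hVx]; exact rfl
    exact this.1
  obtain ⟨y, hyV, l, hl⟩ := mem_closure_iff.1 hxC V hV hxV
  have hyx : y = x := by
    have : y ∈ V ∩ K := ⟨hyV, hl.eq.2.2⟩
    rw [hVx] at this
    exact this
  subst hyx
  exact ⟨y, hKP hxK, l, hl.eq.2.1, hl.eq.1.symm⟩

end Pool.Agent.X126.LC
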